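import Pool.Agent.H32.RK.TargetsA
import Pool.Agent.H32.RK.TargetsB
import Pool.Agent.H32.RQ.All

/-!
# MP_63b6b1_nt, row PBD: the bounds for independent vectors
-/

set_option autoImplicit false

open Finset NumberField Pool.Agent.H32.RQ Pool.Agent.H32.RK

namespace Pool.Agent.H98.RK

theorem one_sub_prod {ι : Type} (s : Finset ι) (κ : ι → ℝ) (h0 : ∀ i, 0 ≤ κ i)
    (h1 : ∀ i, κ i ≤ 1) : 1 - ∏ i ∈ s, κ i ≤ ∑ i ∈ s, (1 - κ i) := by
  classical
  induction s using Finset.induction_on with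
  | empty => simp
  | insert a s ha ih =>
    rw [Finset.prod_insert ha, Finset.sum_insert ha]
    have h2 : 0 ≤ ∑ i ∈ s, (1 - κ i) := Finset.sum_nonneg fun i _ => by linarith [h1 i]
    have h3 := h0 a
    have h4 := h1 a
    nlinarith

section

variable {K : Type} [Field K] [NumberField K] {ι : Type} [Fintype ι] [DecidableEq ι]
  (ω : Module.Basis ι ℤ (𝓞 K)) {s Q J : ℕ} [NeZero Q]

theorem rr_nonneg (hJ : 1 ≤ J) (x y : Fin s → 𝓞 K) (j k : ι → ZMod Q) :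
    0 ≤ Pool.Agent.H32.RK.rr ω Q J x y j k :=
  Finset.prod_nonneg fun _ _ => Finset.prod_nonneg fun _ _ => ((All.x_FJB Q J hJ).2.1 _).1

theorem rr_le_one (hJ : 1 ≤ J) (x y : Fin s → 𝓞 K) (j k : ι → ZMod Q) :
    Pool.Agent.H32.RK.rr ω Q J x y j k ≤ 1 :=
  Finset.prod_le_one (fun _ _ => Finset.prod_nonneg fun _ _ => ((All.x_FJB Q J hJ).2.1 _).1)
    fun _ _ => Finset.prod_le_one (fun _ _ => ((All.x_FJB Q J hJ).2.1 _).1)
      fun _ _ => ((All.x_FJB Q J hJ).2.1 _).2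

theorem rr_zero (hJ : 1 ≤ J) (x y : Fin s → 𝓞 K) (z : (ι → ZMod Q) × (ι → ZMod Q))
    (hz : z ∉ Pool.Agent.H32.RK.zs ω Q J x y) :
    Pool.Agent.H32.RK.rr ω Q J x y z.1 z.2 = 0 := by
  unfold Pool.Agent.H32.RK.zs at hz
  rw [Finset.mem_filter, not_and] at hz
  have h1 := hz (Finset.mem_univ _)
  push Not at h1
  obtain ⟨p, l, hp⟩ := h1
  refine Finset.prod_eq_zero (Finset.mem_univ p) (Finset.prod_eq_zero (Finset.mem_univ l) ?_)
  unfold tri
  apply max_eq_left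
  have hJ0 : (0 : ℝ) < J := by exact_mod_cast hJ
  have h2 : (J : ℝ) ≤ |(((lf ω Q z.1 (nu x p) l + lf ω Q z.2 (nu y p) l).valMinAbs :
      ℤ) : ℝ)| := by exact_mod_cast hp
  have h3 : 1 ≤ |(((lf ω Q z.1 (nu x p) l + lf ω Q z.2 (nu y p) l).valMinAbs :
      ℤ) : ℝ)| / J := by
    rw [le_div_iff₀ hJ0, one_mul]
    exact h2
  linarith

theorem sum_zs (hJ : 1 ≤ J) (x y : Fin s → 𝓞 K)
    (g : (ι → ZMod Q) → ℝ) (C : ℝ) (hg : ∀ z ∈ Pool.Agent.H32.RK.zs ω Q J x y, g z.1 ≤ C)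
    (hg0 : ∀ j, 0 ≤ g j) :
    ∑ j : ι → ZMod Q, ∑ k : ι → ZMod Q, g j * Pool.Agent.H32.RK.rr ω Q J x y j k ≤
      (Pool.Agent.H32.RK.zs ω Q J x y).card * C := by
  have h1 : ∑ j : ι → ZMod Q, ∑ k : ι → ZMod Q, g j * Pool.Agent.H32.RK.rr ω Q J x y j k =
      ∑ z : (ι → ZMod Q) × (ι → ZMod Q), g z.1 * Pool.Agent.H32.RK.rr ω Q J x y z.1 z.2 := by
    rw [← Finset.univ_product_univ, Finset.sum_product]
  rw [h1]
  have h2 : ∑ z : (ι → ZMod Q) × (ι → ZMod Q), g z.1 * Pool.Agent.H32.RK.rr ω Q J x y z.1 z.2 =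
      ∑ z ∈ Pool.Agent.H32.RK.zs ω Q J x y, g z.1 * Pool.Agent.H32.RK.rr ω Q J x y z.1 z.2 := by
    symm
    apply Finset.sum_subset (Finset.subset_univ _)
    intro z _ hz
    rw [rr_zero ω hJ x y z hz, mul_zero]
  rw [h2, ← nsmul_eq_mul]
  refine Finset.sum_le_card_nsmul _ _ _ fun z hz => ?_
  calc g z.1 * Pool.Agent.H32.RK.rr ω Q J x y z.1 z.2 ≤ g z.1 * 1 :=
        mul_le_mul_of_nonneg_left (rr_le_one ω hJ x y _ _) (hg0 _)
    _ ≤ C := by rw [mul_one]; exact hg z hz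

end

theorem pf_PBD (K : Type) [Field K] [NumberField K] (hPX1 : T_PX1 K) (hPX2 : T_PX2 K)
    (_hPKP : Pool.Agent.H32.RK.T_PKP K) (_hNRM : T_NRM K) : Pool.Agent.H32.RK.T_PBD K := by
  intro ι _ _ ω s hs
  obtain ⟨C1, hC1, h1⟩ := hPX1 ι ω s hs
  obtain ⟨C2, hC2, h2⟩ := hPX2 ι ω s hs
  have hcard : Fintype.card ι = dg K := by
    rw [← Module.finrank_eq_card_basis ω, RingOfIntegers.rank]
  have hd1 : (0 : ℝ) ≤ dg K := Nat.cast_nonneg _
  obtain ⟨C, hC⟩ : ∃ C : ℝ, C = C1 * C2 * (dg K + 1) := ⟨_, rfl⟩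
  have hC12 : C1 * C2 ≤ C := by
    rw [hC]
    have : 0 ≤ C1 * C2 := by positivity
    nlinarith
  have hCC1 : C1 ≤ C := by nlinarith
  have hCC2 : C2 ≤ C := by nlinarith
  refine ⟨C, by linarith, ?_⟩
  intro b A J Q W T _ c x y D hb hA hbc hQ hJb hW hWQ hTQ hWT hx hy hD
  have hb4 : (0 : ℝ) ≤ (b : ℝ) ^ 4 := by positivity
  have hb16 : (1 : ℝ) ≤ (b : ℝ) ^ 16 := one_le_pow₀ (by exact_mod_cast hb)
  have hJ1 : (1 : ℝ) ≤ J := by nlinarith
  have hJ : 1 ≤ J := by exact_mod_cast hJ1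
  have hJ0 : (0 : ℝ) < J := by exact_mod_cast hJ
  have hA0 : (0 : ℝ) < A := by exact_mod_cast hA
  have hQr : (Q : ℝ) = 2 * A * J := by exact_mod_cast hQ
  have hQ0 : (0 : ℝ) < Q := by rw [hQr]; positivity
  have hpm : 0 ≤ pm D := Finset.prod_nonneg fun w _ => pow_nonneg (hD w).1.le _
  have hX1 := h1 b A J Q c x y D hb hA ((mul_le_mul_of_nonneg_right hCC1 hb4).trans hbc) hQ
    ((mul_le_mul_of_nonneg_right hCC1 (by positivity)).trans hJb) hx hy hD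
  obtain ⟨Z, hZ⟩ : ∃ Z : ℝ, Z = ((Pool.Agent.H32.RK.zs ω Q J x y).card : ℝ) := ⟨_, rfl⟩
  rw [← hZ] at hX1
  have hZ0 : 0 ≤ Z := by
    rw [hZ]
    exact Nat.cast_nonneg _
  obtain ⟨U, hU⟩ : ∃ U : ℝ, U = (b : ℝ) ^ (8 * dg K) * pm D := ⟨_, rfl⟩
  rw [← hU] at hX1
  have hU0 : 0 ≤ U := by
    rw [hU]
    positivity
  obtain ⟨N, hN⟩ : ∃ N : ℝ, N = (Ideal.absNorm (gi x y) : ℝ) := ⟨_, rfl⟩
  rw [← hN] at hX1
  have hN0 : 0 ≤ N := by
    rw [hN]
    exact Nat.cast_nonneg _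
  have hassoc : (2 * (A : ℝ)) ^ (2 * dg K) * (b : ℝ) ^ (8 * dg K) * pm D =
      (2 * (A : ℝ)) ^ (2 * dg K) * U := by
    rw [hU]
    ring
  rw [hassoc, ← hN]
  have hQpow : (Q : ℝ) ^ (2 * Fintype.card ι) = (2 * (A : ℝ)) ^ (2 * dg K) * (J : ℝ) ^ (2 * dg K) := by
    rw [hQr, hcard, mul_pow]
  have hA2 : (0 : ℝ) < (2 * (A : ℝ)) ^ (2 * dg K) := by positivity
  have hJ2 : (0 : ℝ) < (J : ℝ) ^ (2 * dg K) := by positivity
  constructor
  · unfold Pool.Agent.H32.RK.pp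
    rw [hQpow]
    have h3 : ∑ j : ι → ZMod Q, ∑ k : ι → ZMod Q, Pool.Agent.H32.RK.rr ω Q J x y j k ≤ Z * 1 := by
      have := sum_zs ω (Q := Q) hJ x y (fun _ => 1) 1 (fun _ _ => le_rfl) (fun _ => zero_le_one)
      rw [hZ]
      simpa only [one_mul] using this
    rw [mul_one] at h3
    have h4 : (∑ j : ι → ZMod Q, ∑ k : ι → ZMod Q, Pool.Agent.H32.RK.rr ω Q J x y j k) /
        ((2 * (A : ℝ)) ^ (2 * dg K) * (J : ℝ) ^ (2 * dg K)) * ((2 * (A : ℝ)) ^ (2 * dg K) * U) =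
        (∑ j : ι → ZMod Q, ∑ k : ι → ZMod Q, Pool.Agent.H32.RK.rr ω Q J x y j k) * U /
          (J : ℝ) ^ (2 * dg K) := by
      field_simp
    rw [h4, div_le_iff₀ hJ2]
    calc (∑ j : ι → ZMod Q, ∑ k : ι → ZMod Q, Pool.Agent.H32.RK.rr ω Q J x y j k) * U
        ≤ Z * U := mul_le_mul_of_nonneg_right h3 hU0
      _ ≤ C1 * N * (J : ℝ) ^ (2 * dg K) := hX1
      _ ≤ C * N * (J : ℝ) ^ (2 * dg K) := by gcongr
  · intro hg
    have hX2 := h2 b A J Q W c x y D hb hA ((mul_le_mul_of_nonneg_right hCC2 hb4).trans hbc) hQ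
      hW hWQ hx hy hD hg
    obtain ⟨hk1, hk2⟩ := All.x_KPB Q W T hW hWQ hTQ hWT
    obtain ⟨S, hS⟩ : ∃ S : ℝ, S = ∑ w, 1 / D w := ⟨_, rfl⟩
    have hS0 : 0 ≤ S := by
      rw [hS]
      exact Finset.sum_nonneg fun w _ => div_nonneg zero_le_one (hD w).1.le
    rw [← hS] at hX2 ⊢
    have hT0 : (0 : ℝ) ≤ T := Nat.cast_nonneg _
    obtain ⟨E, hE⟩ : ∃ E : ℝ, E = dg K * (C2 * S * T / (2 * A)) := ⟨_, rfl⟩
    have hE0 : 0 ≤ E := by
      rw [hE]
      positivity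
    have h3 : ∑ j : ι → ZMod Q, ∑ k : ι → ZMod Q,
        (1 - kp Q W T j) * Pool.Agent.H32.RK.rr ω Q J x y j k ≤ Z * E := by
      rw [hZ]
      refine sum_zs ω (Q := Q) hJ x y (fun j => 1 - kp Q W T j) E ?_ ?_
      · intro z hz
        have h4 : 1 - kp Q W T z.1 ≤ ∑ m, (1 - kap Q W T (z.1 m)) := by
          unfold kp
          exact one_sub_prod Finset.univ (fun m => kap Q W T (z.1 m)) (fun m => (hk1 _).1)
            (fun m => (hk1 _).2)
        refine h4.trans ?_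
        have h5 : ∑ m, (1 - kap Q W T (z.1 m)) ≤
            Fintype.card ι • (C2 * S * T / (2 * A)) := by
          rw [← Finset.card_univ]
          refine Finset.sum_le_card_nsmul _ _ _ fun m _ => ?_
          obtain ⟨a, n, hz1, hn⟩ := hX2 z hz m
          have h6 := hk2 a n (z.1 m) hz1
          have h7 : |(n : ℝ)| * T / Q ≤ C2 * S * T / (2 * A) := by
            rw [hQr, div_le_div_iff₀ (by positivity) (by positivity)]
            calc |(n : ℝ)| * T * (2 * A) = |(n : ℝ)| * (T * (2 * A)) := by ring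
              _ ≤ (C2 * J * S) * (T * (2 * A)) :=
                mul_le_mul_of_nonneg_right hn (by positivity)
              _ = C2 * S * T * (2 * A * J) := by ring
          linarith
        rw [nsmul_eq_mul, hcard] at h5
        rw [hE]
        exact h5
      · intro j
        have h4 : kp Q W T j ≤ 1 := by
          unfold kp
          exact Finset.prod_le_one (fun m _ => (hk1 _).1) fun m _ => (hk1 _).2
        change 0 ≤ 1 - kp Q W T j
        linarith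
    unfold Pool.Agent.H32.RK.pk
    rw [hQpow]
    have h4 : (∑ j : ι → ZMod Q, ∑ k : ι → ZMod Q,
        (1 - kp Q W T j) * Pool.Agent.H32.RK.rr ω Q J x y j k) /
        ((2 * (A : ℝ)) ^ (2 * dg K) * (J : ℝ) ^ (2 * dg K)) * ((2 * (A : ℝ)) ^ (2 * dg K) * U) * A =
        (∑ j : ι → ZMod Q, ∑ k : ι → ZMod Q,
          (1 - kp Q W T j) * Pool.Agent.H32.RK.rr ω Q J x y j k) * U * A /
          (J : ℝ) ^ (2 * dg K) := by
      field_simp
    rw [h4, div_le_iff₀ hJ2]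
    calc (∑ j : ι → ZMod Q, ∑ k : ι → ZMod Q,
          (1 - kp Q W T j) * Pool.Agent.H32.RK.rr ω Q J x y j k) * U * A
        ≤ (Z * E) * U * A := by gcongr
      _ = (E * A) * (Z * U) := by ring
      _ ≤ (E * A) * (C1 * N * (J : ℝ) ^ (2 * dg K)) :=
          mul_le_mul_of_nonneg_left hX1 (by positivity)
      _ = (C1 * C2 * (dg K / 2)) * N * T * S * (J : ℝ) ^ (2 * dg K) := by
          rw [hE]
          field_simp
      _ ≤ C * N * T * S * (J : ℝ) ^ (2 * dg K) := by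
          have h5 : C1 * C2 * ((dg K : ℝ) / 2) ≤ C := by
            rw [hC]
            have : 0 ≤ C1 * C2 := by positivity
            nlinarith
          gcongr

end Pool.Agent.H98.RK
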