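import Pool.Agent.H32.RK.TargetsA

/-!
# MP_63b6b1_nt, row UPP: upper bound for the number of integers
-/

set_option autoImplicit false

open Finset NumberField Pool.Agent.H32.RQ Pool.Agent.H32.RK

namespace Pool.Agent.H98.RK

theorem pf_UPP (K : Type) [Field K] [NumberField K] (hLAT : T_LAT K) (hNRM : T_NRM K) :
    T_UPP K := by
  classical
  obtain ⟨C, hC, hL⟩ := hLAT
  obtain ⟨hN1, -, -, hN4, -, -, -⟩ := hNRM
  refine ⟨2 * C, by linarith, fun S X hX hS => ?_⟩
  have hX0 : 0 < X := by linarith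
  have hinj : Function.Injective (fun a : 𝓞 K => (a : K)) := fun a b h => RingOfIntegers.ext h
  have h1 := hL (S.image fun a : 𝓞 K => (a : K)) (fun _ => X) 1 one_pos (fun _ => hX0) (by
    intro t ht t' ht' hne
    obtain ⟨a, ha, rfl⟩ := Finset.mem_image.1 ht
    obtain ⟨b, hb, rfl⟩ := Finset.mem_image.1 ht'
    refine ⟨hS a ha b hb, ?_⟩
    have hab : a - b ≠ 0 := by
      intro h
      apply hne
      rw [sub_eq_zero.1 h]
    have h2 := hN1 ⊤ (a - b) Submodule.mem_top hab
    rw [Ideal.absNorm_top, Nat.cast_one] at h2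
    have h3 : ((a - b : 𝓞 K) : K) = (a : K) - (b : K) := map_sub _ _ _
    rwa [h3] at h2)
  rw [Finset.card_image_of_injective _ hinj, hN4, div_one] at h1
  have h4 : 1 ≤ X ^ dg K := one_le_pow₀ hX
  nlinarith

end Pool.Agent.H98.RK
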